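import Pool.Agent.Q72.SH.Rat

/-!
MP_b9fedf_ag, Q1: entire curves with invariant or given hyperplane sections in projective algebraic
sets which receive no nonconstant holomorphic maps from complex tori.
-/

set_option autoImplicit false

namespace Pool.Agent.Results.MP_b9fedf_ag.LatticeInvariantSections

open MvPolynomial Set
open Pool.Agent.TH143 Pool.Agent.TH143.GT Pool.Agent.W603.BPR Pool.Agent.Q72.SH

/-- For all `n` and `d` there is a number `M` such that the following is true for all projective
algebraic sets `X` in `P^n` (reducible or singular ones are allowed) given by a set `S` of forms of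
degrees at most `d`, such that every holomorphic map from a one-dimensional complex torus to `X` is
constant. Entire curves are nonconstant, and are given by homogeneous coordinates.

(1) Among any `M + 1` entire curves in `X` that have the same intersections, with multiplicities,
with the coordinate hyperplanes, there are two that differ by an invertible diagonal matrix of
constants.

Let `f` be an entire curve in `X`. (2) There are only finitely many entire curves in `X` with the
same intersections with the coordinate hyperplanes and the same Zariski closure as `f`. (3) The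
affine substitutions `σ`, `z ↦ a z + b`, `a ≠ 0`, that leave the intersections of `f` with the
coordinate hyperplanes invariant give finitely many curves `f ∘ σ`. (4) If the translation by `b`
leaves these intersections invariant then a multiple `k b`, `k > 0`, is a period of `f`. (5) All
such `b` are rational multiples of one complex number. (6) If the substitution `z ↦ a z + b` leaves
them invariant then `a` is a root of unity.

(7) So every holomorphic map from the plane to `X` whose intersections with the coordinate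
hyperplanes are invariant under a lattice, or under a substitution `z ↦ a z + b` such that `a ≠ 0` is
not a root of unity, is constant. -/
theorem result (n d : ℕ) : ∃ M : ℕ, ∀ S : Set (MvPolynomial (Fin (n + 1)) ℂ),
    (∀ F ∈ S, ∃ e ≤ d, F.IsHomogeneous e) → NoTorusMaps S →
    (∀ g : Fin (M + 1) → ℂ → Fin (n + 1) → ℂ, (∀ s, EntireCurve (Ideal.span S) 1 (g s)) →
      (∀ s t, SameSections (g s) (g t)) → ∃ s t, s ≠ t ∧ DiagEq (g s) (g t)) ∧
    (∀ f, EntireCurve (Ideal.span S) 1 f →
      (∃ M' : ℕ, ∀ g : Fin (M' + 1) → ℂ → Fin (n + 1) → ℂ,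
        (∀ s, EntireCurve (Ideal.span S) 1 (g s)) → (∀ s, SameClosure (g s) f) →
        (∀ s, SameSections (g s) f) → ∃ s t, s ≠ t ∧ SameCurve (g s) (g t)) ∧
      (∃ M' : ℕ, ∀ σ : Fin (M' + 1) → ℂ → ℂ, (∀ s, Aff (σ s)) →
        (∀ s, SameSections (fun z => f (σ s z)) f) →
        ∃ s t, s ≠ t ∧ SameCurve (fun z => f (σ s z)) fun z => f (σ t z)) ∧
      (∀ b, SameSections (fun z => f (z + b)) f →
        ∃ k : ℕ, 0 < k ∧ SameCurve (fun z => f (z + k * b)) f) ∧
      (∃ c : ℂ, ∀ b, SameSections (fun z => f (z + b)) f → ∃ r : ℚ, b = r * c) ∧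
      ∀ a b, a ≠ 0 → SameSections (fun z => f (a * z + b)) f → ∃ k : ℕ, 0 < k ∧ a ^ k = 1) ∧
    ∀ f : ℂ → Fin (n + 1) → ℂ, Differentiable ℂ f → (∀ z, f z ≠ 0) →
      (∀ z, ∀ F ∈ S, eval (f z) F = 0) →
      ((∃ ω₁ ω₂ : ℂ, LinearIndependent ℝ ![ω₁, ω₂] ∧ SameSections (fun z => f (z + ω₁)) f ∧
        SameSections (fun z => f (z + ω₂)) f) ∨
        ∃ a b : ℂ, a ≠ 0 ∧ (∀ k : ℕ, 0 < k → a ^ k ≠ 1) ∧
          SameSections (fun z => f (a * z + b)) f) →
      ∀ z w, ∃ c : ℂ, f z = c • f w := by
  obtain ⟨M, hM⟩ := diag_or_weighted n d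
  refine ⟨M, fun S hS hT => ?_⟩
  have hbd : ∀ f, EntireCurve (Ideal.span S) 1 f → ∃ M', Bd M' (idl f) 1 := by
    intro f hf
    rcases bd_or_weighted hS (Nat.zero_le d) (isHomogeneous_one _ _) hf with h1 | h1
    · exact h1
    · exact absurd h1 (not_weighted hT hS hf)
  refine ⟨fun g hg hs => ?_, fun f hf => ?_, fun f hfd hf0 hfS hinv z w => ?_⟩
  · rcases hM S hS 1 0 (Nat.zero_le d) (isHomogeneous_one _ _) g hg hs with h1 | ⟨s, h1⟩
    · exact h1
    · exact absurd h1 (not_weighted hT hS (hg s))
  · obtain ⟨M', hM'⟩ := hbd f hf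
    exact ⟨⟨M', fun g hg hc hs => fam_of_bd hM' g hg hc hs⟩,
      ⟨M', fun σ hσ h => index_of_bd hM' hf σ hσ h⟩, fun b hb => per_of_bd hM' hf hb,
      periods hM' (EC.idl hf) (zd_idl f) fun ω₁ ω₂ h1 h2 => not_torus hT hf h1 h2,
      fun a b ha h => root_of_bd hM' hf ha h⟩
  · by_contra hcon
    push Not at hcon
    have hf : EntireCurve (Ideal.span S) 1 f := by
      refine ⟨hfd, fun z => ⟨hf0 z, fun H hH => ?_, by rw [map_one]; exact one_ne_zero⟩,
        z, w, hcon⟩
      have h1 : Ideal.span S ≤ RingHom.ker (eval (f z)) := by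
        rw [Ideal.span_le]
        exact fun F hF => hfS z F hF
      exact h1 hH
    obtain ⟨M', hM'⟩ := hbd f hf
    rcases hinv with ⟨ω₁, ω₂, hind, h1, h2⟩ | ⟨a, b, ha, hak, h1⟩
    · obtain ⟨k₁, hk₁, hp1⟩ := per_of_bd hM' hf h1
      obtain ⟨k₂, hk₂, hp2⟩ := per_of_bd hM' hf h2
      refine not_torus hT hf hp1 hp2 ?_
      rw [LinearIndependent.pair_iff] at hind ⊢
      intro s t hst
      have h3 := hind (s * k₁) (t * k₂) (by
        rw [← hst]
        simp only [Complex.real_smul]
        push_cast
        ring)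
      have hk₁' : (k₁ : ℝ) ≠ 0 := by exact_mod_cast hk₁.ne'
      have hk₂' : (k₂ : ℝ) ≠ 0 := by exact_mod_cast hk₂.ne'
      exact ⟨(mul_eq_zero.1 h3.1).resolve_right hk₁', (mul_eq_zero.1 h3.2).resolve_right hk₂'⟩
    · obtain ⟨k, hk, h2⟩ := root_of_bd hM' hf ha h1
      exact hak k hk h2

end Pool.Agent.Results.MP_b9fedf_ag.LatticeInvariantSections
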