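import Pool.Agent.Q64.LC.Uma
import Pool.Agent.Q64.LC.Tor

/-!
# Points on entire curves of slow growth lie on images of complex tori

Let `k` be a countable subfield of `ℂ`, for example the field of algebraic numbers. There is one
function `Ψ`, growing faster than all polynomials, with the following properties for all projective
algebraic sets `X ⊂ ℙ ^ n` over `k`, for all `n`. We consider the nonconstant entire curves in `X`
with entire homogeneous coordinates `f` such that `‖f z‖ ≤ C * Ψ ‖z‖` for large `z`.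

1. For all such `f`, and all finite sets of points of `X` with coordinates in `k` which lie on the
curve `f`, there is a nonconstant holomorphic map from a one-dimensional complex torus to `X` whose
image contains all these points.

2. If all nonconstant holomorphic maps from one-dimensional complex tori to `X` map to the closed
subset `Z`, then so do all these entire curves. In particular, if there are no such maps from tori,
there are no such entire curves.

3. The Hausdorff dimension of the set of all points on these entire curves (in the cone over `X`) is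
at most the Hausdorff dimension of the set of all points on the images of the nonconstant
holomorphic maps from one-dimensional complex tori to `X`.
-/

set_option autoImplicit false

namespace Pool.Agent.Results.MP_b9fedf_ag.SlowThroughPoints

open MvPolynomial Pool.Agent.TH143.GT Pool.Agent.W602.GT Pool.Agent.W603.GR Pool.Agent.W603.PV
  Pool.Agent.Q64.LC Pool.Agent.TH143.EL
open scoped LinearAlgebra.Projectivization

theorem result (k : Subfield ℂ) [Countable k] :
    ∃ Ψ : ℝ → ℝ, SuperPoly Ψ ∧ ∀ (n : ℕ) (I : Ideal (MvPolynomial (Fin (n + 1)) ℂ)),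
      IsHomog I → OverK k I →
      -- points with coordinates in `k`
      (∀ f, Entire I 1 f → GrowthLe Ψ f → ∀ (r : ℕ) (x : Fin r → Fin (n + 1) → ℂ),
        (∀ i, x i ≠ 0 ∧ ∀ j, x i j ∈ k) → (∀ i, ∃ z c : ℂ, x i = c • f z) →
        ∃ (ω₁ ω₂ : ℂ) (g : ℂ → ℙ ℂ (Fin (n + 1) → ℂ)), TorusMap I ω₁ ω₂ g ∧
          ∀ i, ∃ z, Rep (g z) (x i)) ∧
      -- closed subsets
      (∀ I' : Ideal (MvPolynomial (Fin (n + 1)) ℂ),
        (∀ (ω₁ ω₂ : ℂ) (g : ℂ → ℙ ℂ (Fin (n + 1) → ℂ)), TorusMap I ω₁ ω₂ g → ∀ z, InV I' (g z)) →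
        ∀ f, Entire I 1 f → GrowthLe Ψ f → ∀ z, InZ I' (f z)) ∧
      ((∀ (ω₁ ω₂ : ℂ) (g : ℂ → ℙ ℂ (Fin (n + 1) → ℂ)), ¬ TorusMap I ω₁ ω₂ g) →
        ∀ f, Entire I 1 f → ¬ GrowthLe Ψ f) ∧
      -- dimensions
      dimH (slowPts I 1 Ψ) ≤ dimH (torusPts I) := by
  obtain ⟨Ψ, h1, h2⟩ := uni_main k
  refine ⟨Ψ, h1, fun n I hI hIk => ?_⟩
  have h1k : CoeffK k (1 : MvPolynomial (Fin (n + 1)) ℂ) := ⟨1, (map_one _).symm⟩
  obtain ⟨h3, h4, -, h5⟩ := h2 n I 1 0 hI (isHomogeneous_one _ _) hIk h1k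
  have hsub : ratPts I 1 ⊆ torusPts I ∪ {0} := by
    rintro _ ⟨T, hT, u, rfl⟩
    by_cases h0 : (fun j => (T j).eval u) = 0
    · exact Or.inr h0
    · obtain ⟨ω₁, ω₂, g, hg, h6⟩ := torus_through hT ‖u‖
      exact Or.inl ⟨ω₁, ω₂, g, hg, h6 u le_rfl h0⟩
  have hclosed : ∀ I' : Ideal (MvPolynomial (Fin (n + 1)) ℂ),
        (∀ (ω₁ ω₂ : ℂ) (g : ℂ → ℙ ℂ (Fin (n + 1) → ℂ)), TorusMap I ω₁ ω₂ g → ∀ z, InV I' (g z)) →
        ∀ f, Entire I 1 f → GrowthLe Ψ f → ∀ (z : ℂ) (H : MvPolynomial (Fin (n + 1)) ℂ),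
          H ∈ I' → IsForm H → (∀ d, H.IsHomogeneous d → d ≠ 0) → eval (f z) H = 0 := by
    intro I' hT f hf hg z H hH hHf hd0
    have h6 := h4 f hf hg z
    have hcl : IsClosed {x : Fin (n + 1) → ℂ | eval x H = 0} :=
      isClosed_eq (MvPolynomial.continuous_eval H) continuous_const
    refine (closure_minimal ?_ hcl) h6
    intro x hx
    rcases hsub hx with ⟨ω₁, ω₂, g, hg, z, hz⟩ | hx0
    · exact (inV_iff hz).1 (hT ω₁ ω₂ g hg z) H hH hHf
    · obtain ⟨d, hd⟩ := hHf
      rw [Set.mem_singleton_iff] at hx0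
      rw [Set.mem_ofPred_eq, hx0]
      have h7 := Pool.Agent.TH143.EL.eval_smul_homog hd 0 (0 : Fin (n + 1) → ℂ)
      rw [zero_pow (hd0 d hd), zero_mul] at h7
      simpa using h7
  have hnone : (∀ (ω₁ ω₂ : ℂ) (g : ℂ → ℙ ℂ (Fin (n + 1) → ℂ)), ¬ TorusMap I ω₁ ω₂ g) →
      ∀ f, Entire I 1 f → ¬ GrowthLe Ψ f := by
    intro h f hf hg
    have h6 : (ratPts I 1).Nonempty := by
      rw [← closure_nonempty_iff]
      exact ⟨_, h4 f hf hg 0⟩
    obtain ⟨_, T, hT, -⟩ := h6
    obtain ⟨ω₁, ω₂, g, hg, -⟩ := torus_through hT 0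
    exact h ω₁ ω₂ g hg
  refine ⟨fun f hf hg r x hx hxf => ?_, fun I' hT f hf hg z H hH hHf => ?_, hnone, ?_⟩
  · obtain ⟨T, hT, h6⟩ := (h5 r f hf hg).1 x (fun i => (hx i).2) hxf
    choose u c huc using h6
    obtain ⟨ω₁, ω₂, g, hg, h7⟩ := torus_through hT (∑ i, ‖u i‖)
    refine ⟨ω₁, ω₂, g, hg, fun i => ?_⟩
    have hc : c i ≠ 0 := by
      intro h0
      apply (hx i).1
      rw [huc i, h0, zero_smul]
    have hT0 : (fun j => (T j).eval (u i)) ≠ 0 := by
      intro h0
      apply (hx i).1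
      rw [huc i, h0, smul_zero]
    obtain ⟨z, hz⟩ := h7 (u i) (Finset.single_le_sum (f := fun i => ‖u i‖)
      (fun i _ => norm_nonneg _) (Finset.mem_univ i)) hT0
    refine ⟨z, ?_⟩
    rw [huc i]
    exact (rep_smul hc).2 hz
  · by_cases hd0 : ∀ d, H.IsHomogeneous d → d ≠ 0
    · exact hclosed I' hT f hf hg z H hH hHf hd0
    · push Not at hd0
      obtain ⟨d, hd, rfl⟩ := hd0
      by_cases hne : ∃ (ω₁ ω₂ : ℂ) (g : ℂ → ℙ ℂ (Fin (n + 1) → ℂ)), TorusMap I ω₁ ω₂ g
      · obtain ⟨ω₁, ω₂, g, hg⟩ := hne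
        have h6 := hT ω₁ ω₂ g hg 0 H hH hHf
        obtain ⟨c, rfl⟩ : ∃ c, H = C c := ⟨_, (totalDegree_eq_zero_iff_eq_C (p := H)).1
          (Nat.le_zero.1 hd.totalDegree_le)⟩
        rw [eval_C] at h6 ⊢
        exact h6
      · push Not at hne
        exact absurd hg (hnone hne f hf)
  · rw [h3]
    refine (dimH_mono hsub).trans ?_
    rw [dimH_union]
    refine max_le le_rfl ?_
    rw [dimH_singleton]
    exact zero_le

end Pool.Agent.Results.MP_b9fedf_ag.SlowThroughPoints
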