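import Pool.Agent.Q72.TR.App

/-!
MP_b9fedf_ag, Q1: a second main theorem, with truncated counting functions, for all entire curves
outside of the rational curves.
-/

set_option autoImplicit false

namespace Pool.Agent.Results.MP_b9fedf_ag.TruncatedInequality

open MvPolynomial
open Pool.Agent.TH143 Pool.Agent.W602.GT Pool.Agent.W603.BPR Pool.Agent.Q72.TR
open Pool.Agent.Q72.SH (InD)

/-- For all `n` and `d` there are `ε > 0` and `m` such that the following is true for all projective
algebraic sets `X` in `P^n` given by a set `E` of forms of degrees at most `d`, and all closed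
subsets `Δ` of `X`, given by a set `J` of forms, that contain all rational curves of `X` (so `Δ` may
be empty if `X` contains no rational curves, in particular if there are no nonconstant maps from
abelian varieties to `X`; take `J = {1}`).

Let `f` be a nonconstant entire curve in `X` that does not lie in `Δ`, given by homogeneous
coordinates without common zeros; it need not be Zariski-dense in `X`. Let `ℓ` be the linear forms of
`n + 1` hyperplanes of `P^n` without common point. Then `ε T(r) ≤ N(r)` for all `r` outside of a set
of finite measure, where `T` is the characteristic function of `f` and `N` the counting function of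
the points that `f` maps to one of those hyperplanes which do not contain the curve, each point
counted once. And one of the intersections of `f` with these hyperplanes has a multiplicity less
than `m`. -/
theorem result (n d : ℕ) : ∃ (ε : ℝ) (m : ℕ), 0 < ε ∧
    ∀ E : Set (MvPolynomial (Fin (n + 1)) ℂ), (∀ F ∈ E, ∃ e ≤ d, F.IsHomogeneous e) →
    ∀ J : Set (MvPolynomial (Fin (n + 1)) ℂ), (∀ H ∈ J, IsForm H) →
    (∀ P : Fin (n + 1) → Polynomial ℂ, EntireCurve (Ideal.span E) 1 (fun z l => (P l).eval z) →
      ∀ z, InD J fun l => (P l).eval z) →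
    ∀ ℓ S, Inv ℓ S → ∀ f, EntireCurve (Ideal.span E) 1 f → (∃ z, ¬ InD J (f z)) →
      Trunc ε ℓ 1 f ∧ ¬ MultGe m ℓ 1 f := by
  obtain ⟨ε, B, m, hε, h⟩ := tfae_main n d
  refine ⟨ε, m, hε, fun E hE J hJ hR ℓ S hℓ f hf hz => ?_⟩
  have hE' : ∀ F ∈ E, IsForm F := fun F hF => by
    obtain ⟨e, -, he⟩ := hE F hF
    exact ⟨e, he⟩
  have h1 := h E hE 1 0 (Nat.zero_le d) (isHomogeneous_one _ _) J
  have h2 : MonIn B E 1 J := monIn_of_rat hE' hJ (fun g hg ⟨P, hP⟩ z => by
    have h3 : g = fun z l => (P l).eval z := by
      funext z l
      exact hP z l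
    subst h3
    exact hR P hg z) B
  have h3 := (h1.out 0 1).1 h2
  have h4 := (h1.out 0 2).1 h2
  exact ⟨h3 ℓ S hℓ f (Cur.of hf) hz, h4 ℓ S hℓ f (Cur.of hf) hz⟩

end Pool.Agent.Results.MP_b9fedf_ag.TruncatedInequality
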